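import Pool.Agent.Lib.MP_9cdd18_an.CXHedge

namespace Pool.Agent.Results.MP_9cdd18_an.NotLocal

open Pool.Agent.Lib.MP_9cdd18_an.CX

theorem result : ∃ (Ω : Set (Fin 2 → ℂ)) (φ : (Fin 2 → ℂ) → EReal), IsOpen Ω ∧ IsConnected Ω ∧
    PSHne Ω φ ∧ (∀ a ∈ Ω, ∃ r : ℝ, 0 < r ∧ closure (EBall a r) ⊆ Ω ∧ MaximalNe (EBall a r) φ) ∧
    ¬ MaximalNe Ω φ :=
  not_local

end Pool.Agent.Results.MP_9cdd18_an.NotLocal
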