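import Pool.Agent.Lib.MP_9cdd18_an.Main

namespace Pool.Agent.Results.MP_9cdd18_an.SingType

open Pool.Agent.Lib.MP_9cdd18_an

theorem result (n : ℕ) (Ω : Set (Fin n → ℂ)) (φ : (Fin n → ℂ) → EReal) (hφ : PSH Ω φ)
    (hloc : ∀ x ∈ Ω, ∃ V : Set (Fin n → ℂ), IsOpen V ∧ x ∈ V ∧ IsCompact (closure V) ∧
      closure V ⊆ Ω ∧ Maximal V φ)
    (hsing : ∀ K : Set (Fin n → ℂ), IsCompact K → K ⊆ Ω →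
      ∃ (U : Set (Fin n → ℂ)) (g ψ : (Fin n → ℂ) → EReal), IsOpen U ∧ K ⊆ U ∧ U ⊆ Ω ∧
        Maximal U g ∧ PSH U ψ ∧ U ⊆ closure {x | x ∈ U ∧ ψ x ≠ ⊥} ∧ (∀ x ∈ U, φ x ≤ g x) ∧
        ∀ ε : ℝ, 0 < ε → ∃ C : ℝ, ∀ x ∈ K, g x + ε * ψ x ≤ φ x + C) :
    Maximal Ω φ :=
  main hφ hloc hsing

end Pool.Agent.Results.MP_9cdd18_an.SingType
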